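import Pool.Agent.Helper67.Final

/-! Own statement beside S06224 (MP_cfd281_an): definitions in the language of composition, and the
proofs from the main theorems of `Pool.Agent.Helper67`. -/

set_option autoImplicit false

namespace Pool.Agent.Helper80.OWN

open Polynomial

/-- `U ∘ A` for `U ∈ ℂ(z)` and `A` in a field containing `ℂ`: substitute `A` for the variable in the
numerator and in the denominator of `U` and divide. -/
noncomputable def comp {K : Type} [Field K] [Algebra ℂ K] (U : RatFunc ℂ) (A : K) : K :=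
  RatFunc.eval (algebraMap ℂ K) A U

/-- the iterate `A ∘ A ∘ ⋯ ∘ A` (`n` factors), `z` for `n = 0` -/
noncomputable def iter (A : RatFunc ℂ) (n : ℕ) : RatFunc ℂ :=
  (fun U : RatFunc ℂ => comp U A)^[n] RatFunc.X

/-- the degree of a rational function: the larger of the degrees of its reduced numerator and
denominator -/
noncomputable def degree (A : RatFunc ℂ) : ℕ := max A.num.natDegree A.denom.natDegree

/-- `U` is a constant function -/
def IsConst (U : RatFunc ℂ) : Prop := ∃ c : ℂ, U = RatFunc.C c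

/-- `A` is a Lattès map: there are an elliptic curve `W`, a non-constant function `t` on `W` and a
non-constant map `L` of `W` to itself (an endomorphism of the function field) with `A ∘ t = t ∘ L`. -/
def IsLattes (A : RatFunc ℂ) : Prop :=
  ∃ W : WeierstrassCurve ℂ, W.IsElliptic ∧
    ∃ (t : W.toAffine.FunctionField) (L : W.toAffine.FunctionField →ₐ[ℂ] W.toAffine.FunctionField),
      (¬ ∃ c : ℂ, t = algebraMap ℂ W.toAffine.FunctionField c) ∧ comp A t = L t

/-- the special maps: Lattès maps and Möbius conjugates of `z ^ n`, `z ^ (-n)`, `T_n` and `- T_n` -/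
def IsSpecial (A : RatFunc ℂ) : Prop :=
  IsLattes A ∨ ∃ μ : RatFunc ℂ, degree μ = 1 ∧ ∃ n : ℕ, 2 ≤ n ∧
    (comp A μ = comp μ (RatFunc.X ^ n : RatFunc ℂ) ∨
     comp A μ = comp μ ((RatFunc.X ^ n)⁻¹ : RatFunc ℂ) ∨
     comp A μ = comp μ (algebraMap ℂ[X] (RatFunc ℂ) (Chebyshev.T ℂ n)) ∨
     comp A μ = comp μ (-(algebraMap ℂ[X] (RatFunc ℂ) (Chebyshev.T ℂ n))))

/-- `P` is a Galois covering: the field extension `ℂ(z)/ℂ(P)` is Galois -/
def IsGaloisCovering (P : RatFunc ℂ) : Prop :=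
  IsGalois (IntermediateField.adjoin ℂ ({P} : Set (RatFunc ℂ))) (RatFunc ℂ)

/-- the map `(z⁴ + 4z - 6) / (2z³ - 6z + 5)` -/
noncomputable def exA : RatFunc ℂ :=
  (RatFunc.X ^ 4 + 4 * RatFunc.X - 6) / (2 * RatFunc.X ^ 3 - 6 * RatFunc.X + 5)

/-- the polynomial `z³ - 3z` -/
noncomputable def exB : RatFunc ℂ := RatFunc.X ^ 3 - 3 * RatFunc.X

open Pool.Agent.Helper67

/-- an algebra homomorphism from `ℂ(z)` is composition with the image of `z` -/
theorem hom_eq_comp {K : Type} [Field K] [Algebra ℂ K] (θ : RatFunc ℂ →ₐ[ℂ] K) (U : RatFunc ℂ) :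
    θ U = comp U (θ RatFunc.X) := by
  have h := RatFunc.num_div_denom U
  conv_lhs => rw [← h]
  rw [map_div₀, hom_aeval, hom_aeval]
  rfl

theorem exA_mul : exA * algebraMap ℂ[X] (RatFunc ℂ) nQ = algebraMap ℂ[X] (RatFunc ℂ) nP := by
  have hQ0 : algebraMap ℂ[X] (RatFunc ℂ) nQ ≠ 0 := RatFunc.algebraMap_ne_zero nQ_ne_zero
  have hQ : algebraMap ℂ[X] (RatFunc ℂ) nQ = 2 * RatFunc.X ^ 3 - 6 * RatFunc.X + 5 := by
    rw [nQ]
    simp only [map_add, map_sub, map_mul, map_pow, map_ofNat, RatFunc.algebraMap_X]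
  have hP : algebraMap ℂ[X] (RatFunc ℂ) nP = RatFunc.X ^ 4 + 4 * RatFunc.X - 6 := by
    rw [nP]
    simp only [map_add, map_sub, map_mul, map_pow, map_ofNat, RatFunc.algebraMap_X]
  rw [hP, hQ, exA]
  rw [hQ] at hQ0
  exact div_mul_cancel₀ _ hQ0

theorem exB_eq : exB = algebraMap ℂ[X] (RatFunc ℂ) nB := by
  rw [exB, nB]
  simp only [map_sub, map_mul, map_pow, map_ofNat, RatFunc.algebraMap_X]

theorem exists_phi_exA : ∃ φ : RatFunc ℂ →ₐ[ℂ] RatFunc ℂ, φ RatFunc.X = exA ∧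
    φ RatFunc.X * algebraMap ℂ[X] (RatFunc ℂ) nQ = algebraMap ℂ[X] (RatFunc ℂ) nP := by
  obtain ⟨φ, hφ⟩ := exists_phi
  have hQ0 : algebraMap ℂ[X] (RatFunc ℂ) nQ ≠ 0 := RatFunc.algebraMap_ne_zero nQ_ne_zero
  exact ⟨φ, mul_right_cancel₀ hQ0 (hφ.trans exA_mul.symm), hφ⟩

theorem isConst_degree {U : RatFunc ℂ} (h : IsConst U) : degree U = 0 := by
  obtain ⟨c, rfl⟩ := h
  simp [degree]

theorem tr_of_not_const {U : RatFunc ℂ} (h : ¬ IsConst U) : Transcendental ℂ U :=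
  RatFunc.transcendental_of_ne_C (f := U) h

theorem tr_of_field {K : Type} [Field K] [Algebra ℂ K] {t : K}
    (h : ¬ ∃ c : ℂ, t = algebraMap ℂ K c) : Transcendental ℂ t := by
  intro halg
  apply h
  obtain ⟨p, hp0, hp⟩ := halg
  have hs := (IsAlgClosed.splits p).eq_prod_roots
  have h1 := congrArg (aeval t) hs
  rw [hp, map_mul, map_multiset_prod, Multiset.map_map] at h1
  have hlc : (aeval t) (C p.leadingCoeff) ≠ 0 := by
    rw [aeval_C]
    exact fun h0 => hp0 (leadingCoeff_eq_zero.1 ((map_eq_zero _).1 h0))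
  have h2 := (mul_eq_zero.1 h1.symm).resolve_left hlc
  rw [Multiset.prod_eq_zero_iff, Multiset.mem_map] at h2
  obtain ⟨r, _, hr⟩ := h2
  refine ⟨r, ?_⟩
  simp only [Function.comp, map_sub, aeval_X, aeval_C] at hr
  exact sub_eq_zero.1 hr

theorem exA_degree : degree exA = 4 := by
  have hQ0 : algebraMap ℂ[X] (RatFunc ℂ) nQ ≠ 0 := RatFunc.algebraMap_ne_zero nQ_ne_zero
  have h1 : exA = algebraMap ℂ[X] (RatFunc ℂ) nP / algebraMap ℂ[X] (RatFunc ℂ) nQ := by
    rw [eq_div_iff hQ0]; exact exA_mul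
  have h2 := (RatFunc.num_mul_eq_mul_denom_iff nQ_ne_zero).mpr h1
  have hcop : IsCoprime nP nQ := coprime_of_no_common_root coprime_cert
  have h3 : nP ∣ exA.num := hcop.dvd_of_dvd_mul_right ⟨_, h2⟩
  have h3' : nQ ∣ exA.denom := hcop.symm.dvd_of_dvd_mul_left ⟨_, h2.symm.trans (mul_comm _ _)⟩
  have hcop' := RatFunc.isCoprime_num_denom exA
  have h4 : exA.num ∣ nP := hcop'.dvd_of_dvd_mul_right ⟨_, h2.symm⟩
  have h4' : exA.denom ∣ nQ :=
    hcop'.symm.dvd_of_dvd_mul_left ⟨_, h2.trans (mul_comm _ _)⟩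
  have e1 : exA.num.natDegree = nP.natDegree :=
    natDegree_eq_of_degree_eq (degree_eq_degree_of_associated (associated_of_dvd_dvd h4 h3))
  have e2 : exA.denom.natDegree = nQ.natDegree :=
    natDegree_eq_of_degree_eq (degree_eq_degree_of_associated (associated_of_dvd_dvd h4' h3'))
  have h5 : nP.natDegree = 4 := by
    have e6 : (6 : ℂ[X]) = C 6 := (map_ofNat C 6).symm
    have e4 : (4 : ℂ[X]) = C 4 := (map_ofNat C 4).symm
    rw [nP, e6, e4]
    compute_degree!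
  have h6 : nQ.natDegree = 3 := by
    have e6 : (6 : ℂ[X]) = C 6 := (map_ofNat C 6).symm
    have e2 : (2 : ℂ[X]) = C 2 := (map_ofNat C 2).symm
    have e5 : (5 : ℂ[X]) = C 5 := (map_ofNat C 5).symm
    rw [nQ, e6, e2, e5]
    compute_degree!
  rw [degree, e1, e2, h5, h6]
  rfl

theorem exB_degree : degree exB = 3 := by
  rw [degree, exB_eq, RatFunc.num_algebraMap, RatFunc.denom_algebraMap, nB_natDegree]
  simp

/-- `ℂ(V) ` is the set of all `U ∘ V` -/
theorem mem_adjoin_iff {P : RatFunc ℂ} (hP : ¬ IsConst P) (g : RatFunc ℂ) :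
    g ∈ IntermediateField.adjoin ℂ ({P} : Set (RatFunc ℂ)) ↔ ∃ U : RatFunc ℂ, g = comp U P := by
  obtain ⟨κ, hκ⟩ := exists_ratFunc_hom (tr_of_not_const hP)
  have hrange : IntermediateField.adjoin ℂ ({P} : Set (RatFunc ℂ)) = κ.fieldRange := by
    have h6 := IntermediateField.adjoin_map ℂ ({RatFunc.X} : Set (RatFunc ℂ)) κ
    rw [Set.image_singleton, RatFunc.adjoin_X, hκ] at h6
    rw [← h6]
    exact (AlgHom.fieldRange_eq_map κ).symm
  rw [hrange, AlgHom.mem_fieldRange]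
  constructor
  · rintro ⟨U, hU⟩
    exact ⟨U, by rw [← hU, hom_eq_comp, hκ]⟩
  · rintro ⟨U, hU⟩
    exact ⟨U, by rw [hU, hom_eq_comp, hκ]⟩

theorem exB_not_const : ¬ IsConst exB := by
  intro h
  have := isConst_degree h
  rw [exB_degree] at this
  norm_num at this

theorem iter_eq (φ : RatFunc ℂ →ₐ[ℂ] RatFunc ℂ) (n : ℕ) :
    iter (φ RatFunc.X) n = (⇑φ)^[n] RatFunc.X := by
  have h : (fun U : RatFunc ℂ => comp U (φ RatFunc.X)) = ⇑φ := by
    funext U
    rw [hom_eq_comp φ U]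
  rw [iter, h]

theorem comp_iter (φ : RatFunc ℂ →ₐ[ℂ] RatFunc ℂ) (n : ℕ) (U : RatFunc ℂ) :
    comp U (iter (φ RatFunc.X) n) = (⇑φ)^[n] U := by
  obtain ⟨Φ, hΦ⟩ := iterate_hom φ n
  rw [iter_eq, ← hΦ, ← hΦ, hom_eq_comp Φ U]

theorem not_const_of_hom (Φ : RatFunc ℂ →ₐ[ℂ] RatFunc ℂ) {U : RatFunc ℂ} (hU : ¬ IsConst U) :
    ¬ IsConst (Φ U) := by
  rintro ⟨c, hc⟩
  apply hU
  refine ⟨c, Φ.toRingHom.injective ?_⟩
  change Φ U = Φ (RatFunc.C c)
  rw [hc]
  exact (Φ.commutes c).symm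

theorem not_special_exA : ¬ IsSpecial exA := by
  obtain ⟨φ, hφA, hφ⟩ := exists_phi_exA
  rintro (⟨W, hW, t, L, ht, hL⟩ | ⟨μ, hμ, n, hn, hcase⟩)
  · apply not_special φ hφ
    left
    obtain ⟨θ, hθ⟩ := exists_ratFunc_hom (tr_of_field ht)
    refine ⟨W, hW, θ, L, ?_⟩
    apply ratFunc_hom_ext
    rw [AlgHom.comp_apply, AlgHom.comp_apply, hθ, ← hL, hφA, hom_eq_comp θ exA, hθ]
  · have hμc : ¬ IsConst μ := by
      intro h
      rw [isConst_degree h] at hμ
      norm_num at hμ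
    obtain ⟨θ, hθ⟩ := exists_ratFunc_hom (tr_of_not_const hμc)
    -- a general step
    have key : ∀ g : RatFunc ℂ, ¬ IsConst g → comp exA μ = comp μ g →
        ∃ ψ : RatFunc ℂ →ₐ[ℂ] RatFunc ℂ, ψ RatFunc.X = g ∧ ψ.comp θ = θ.comp φ := by
      intro g hg h
      obtain ⟨ψ, hψ⟩ := exists_ratFunc_hom (tr_of_not_const hg)
      refine ⟨ψ, hψ, ?_⟩
      apply ratFunc_hom_ext
      rw [AlgHom.comp_apply, AlgHom.comp_apply, hθ, hφA, hom_eq_comp θ exA, hθ, h,
        hom_eq_comp ψ μ, hψ]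
    have hn0 : n ≠ 0 := by omega
    have hXn : ¬ IsConst (RatFunc.X ^ n : RatFunc ℂ) := by
      rintro ⟨c, hc⟩
      rw [← RatFunc.algebraMap_X, ← map_pow, ← RatFunc.algebraMap_C] at hc
      have := congrArg natDegree (RatFunc.algebraMap_injective ℂ hc)
      rw [natDegree_X_pow, natDegree_C] at this
      exact hn0 this
    have hXn' : ¬ IsConst ((RatFunc.X ^ n)⁻¹ : RatFunc ℂ) := by
      rintro ⟨c, hc⟩
      apply hXn
      refine ⟨c⁻¹, ?_⟩
      rw [map_inv₀, ← hc, inv_inv]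
    have hT : ¬ IsConst (algebraMap ℂ[X] (RatFunc ℂ) (Chebyshev.T ℂ n)) := by
      rintro ⟨c, hc⟩
      rw [← RatFunc.algebraMap_C] at hc
      have := congrArg natDegree (RatFunc.algebraMap_injective ℂ hc)
      rw [natDegree_C, Chebyshev.natDegree_T] at this
      simp at this
      exact hn0 this
    have hT' : ¬ IsConst (-(algebraMap ℂ[X] (RatFunc ℂ) (Chebyshev.T ℂ n))) := by
      rintro ⟨c, hc⟩
      apply hT
      refine ⟨-c, ?_⟩
      rw [map_neg, ← hc, neg_neg]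
    rcases hcase with h | h | h | h
    · obtain ⟨ψ, hψ, hc⟩ := key _ hXn h
      exact no_power φ hφ θ ψ hc (n : ℤ) 1 (by rw [hψ]; simp)
    · obtain ⟨ψ, hψ, hc⟩ := key _ hXn' h
      exact no_power φ hφ θ ψ hc (-(n : ℤ)) 1 (by rw [hψ]; simp)
    · obtain ⟨ψ, hψ, hc⟩ := key _ hT h
      exact no_cheb φ hφ θ ψ hc (n : ℤ) 1 (by norm_num) (by rw [hψ]; simp)
    · obtain ⟨ψ, hψ, hc⟩ := key _ hT' h
      exact no_cheb φ hφ θ ψ hc (n : ℤ) (-1) (by norm_num) (by rw [hψ]; simp)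

/-- condition (i) for `exB` -/
theorem cond_i (n : ℕ) : ∃ U V : RatFunc ℂ, ¬ IsConst U ∧ ¬ IsConst V ∧
    comp U (iter exA n) = comp V exB := by
  obtain ⟨φ, hφA, hφ⟩ := exists_phi_exA
  have hφmem : ∀ f ∈ IntermediateField.adjoin ℂ ({exB} : Set (RatFunc ℂ)),
      φ f ∈ IntermediateField.adjoin ℂ ({exB} : Set (RatFunc ℂ)) := by
    have h1 : IntermediateField.adjoin ℂ ({exB} : Set (RatFunc ℂ)) ≤
        (IntermediateField.adjoin ℂ ({exB} : Set (RatFunc ℂ))).comap φ := by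
      rw [IntermediateField.adjoin_le_iff]
      rintro x rfl
      have := phi_B_mem φ hφ
      rw [← exB_eq] at this
      exact this
    intro f hf
    exact h1 hf
  have hm : ∀ m : ℕ, (⇑φ)^[m] exB ∈ IntermediateField.adjoin ℂ ({exB} : Set (RatFunc ℂ)) := by
    intro m
    induction m with
    | zero => exact IntermediateField.mem_adjoin_simple_self ℂ exB
    | succ m ih =>
      rw [Function.iterate_succ_apply']
      exact hφmem _ ih
  obtain ⟨V, hV⟩ := (mem_adjoin_iff exB_not_const _).1 (hm n)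
  obtain ⟨Φ, hΦ⟩ := iterate_hom φ n
  refine ⟨exB, V, exB_not_const, ?_, ?_⟩
  · rintro ⟨c, rfl⟩
    apply not_const_of_hom Φ exB_not_const
    refine ⟨c, ?_⟩
    rw [hΦ, hV, comp, RatFunc.eval_C]
    rfl
  · rw [← hφA, comp_iter, hV]

/-- Galois coverings are not constant -/
theorem galois_not_const {P : RatFunc ℂ} (hP : IsGaloisCovering P) : ¬ IsConst P := by
  rintro ⟨c, rfl⟩
  have hbot : IntermediateField.adjoin ℂ ({RatFunc.C c} : Set (RatFunc ℂ)) = ⊥ := by
    rw [IntermediateField.adjoin_simple_eq_bot_iff, IntermediateField.mem_bot]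
    exact ⟨c, rfl⟩
  unfold IsGaloisCovering at hP
  rw [hbot] at hP
  have halg : Algebra.IsAlgebraic (⊥ : IntermediateField ℂ (RatFunc ℂ)) (RatFunc ℂ) := inferInstance
  have h1 : IsAlgebraic (⊥ : IntermediateField ℂ (RatFunc ℂ)) (RatFunc.X : RatFunc ℂ) :=
    halg.isAlgebraic _
  have h2 : IsAlgebraic ℂ (RatFunc.X : RatFunc ℂ) := by
    have : Algebra.IsAlgebraic ℂ (⊥ : IntermediateField ℂ (RatFunc ℂ)) :=
      Algebra.IsAlgebraic.of_finite ℂ _
    exact h1.restrictScalars ℂ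
  exact hom_transcendental (AlgHom.id ℂ (RatFunc ℂ)) h2

/-- every Galois semiconjugacy is trivial and condition (ii) fails -/
theorem cond_ii (P F : RatFunc ℂ) (hP : IsGaloisCovering P) (h : comp P exA = comp F P) :
    degree P = 1 ∧ ∀ (l : ℕ) (U : RatFunc ℂ), comp P (iter exA l) ≠ comp U exB := by
  obtain ⟨φ, hφA, hφ⟩ := exists_phi_exA
  have hPc := galois_not_const hP
  obtain ⟨ψ, hψ⟩ := exists_ratFunc_hom (tr_of_not_const hPc)
  have hPF : φ P = ψ F := by
    rw [hom_eq_comp φ P, hom_eq_comp ψ F, hφA, hψ, h]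
  have hX := galois_trivial φ hφ P F ψ hψ hPF _ rfl hP
  refine ⟨?_, ?_⟩
  · have htop : IntermediateField.adjoin ℂ ({P} : Set (RatFunc ℂ)) = ⊤ := by
      rw [eq_top_iff, ← RatFunc.adjoin_X, IntermediateField.adjoin_le_iff]
      rintro x rfl
      exact hX
    have h1 : Module.finrank (IntermediateField.adjoin ℂ ({P} : Set (RatFunc ℂ))) (RatFunc ℂ) = 1 := by
      rw [htop]
      exact IntermediateField.finrank_top
    rw [RatFunc.finrank_eq_max_natDegree] at h1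
    exact h1
  · intro l U hU
    rw [← hφA, comp_iter] at hU
    obtain ⟨Φ, hΦ⟩ := iterate_hom φ l
    have hl : Φ P ∈ IntermediateField.adjoin ℂ ({exB} : Set (RatFunc ℂ)) := by
      rw [hΦ, hU]
      exact (mem_adjoin_iff exB_not_const _).2 ⟨U, rfl⟩
    have h1 : IntermediateField.adjoin ℂ ({P} : Set (RatFunc ℂ)) ≤
        (IntermediateField.adjoin ℂ ({exB} : Set (RatFunc ℂ))).comap Φ := by
      rw [IntermediateField.adjoin_le_iff]
      rintro x rfl
      exact hl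
    have h2 : Φ RatFunc.X ∈ IntermediateField.adjoin ℂ ({exB} : Set (RatFunc ℂ)) := h1 hX
    rw [hΦ, exB_eq] at h2
    exact not_right_factor φ hφ l h2

end Pool.Agent.Helper80.OWN
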