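import Pool.Agent.Helper25.SemFinal

/-! Own statement beside S07059 (MP_095aaa_co): odd numbers of copies of two cycles. -/

set_option autoImplicit false

namespace Pool.Agent.Helper80.OWN

open Finset

/-- `G` is super edge-magic: with `p` vertices and `q` edges there are a bijection `f` of vertices
and edges with `{1, ..., p + q}`, which maps the vertices to `{1, ..., p}`, and a constant `σ` with
`f u + f v + f (uv) = σ` for every edge `uv`. -/
def IsSuperEdgeMagic {V : Type} [Fintype V] (G : SimpleGraph V) : Prop :=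
  ∃ (f : V ⊕ G.edgeSet → ℕ) (σ : ℕ),
    Set.BijOn f Set.univ (Set.Icc 1 (Fintype.card V + Nat.card G.edgeSet)) ∧
    Set.range (fun v => f (Sum.inl v)) = Set.Icc 1 (Fintype.card V) ∧
    ∀ (u v : V) (h : G.Adj u v), f (Sum.inl u) + f (Sum.inl v) + f (Sum.inr ⟨s(u, v), h⟩) = σ

/-- `t` disjoint copies of `G` -/
def copies (t : ℕ) {V : Type} (G : SimpleGraph V) : SimpleGraph (Fin t × V) where
  Adj x y := x.1 = y.1 ∧ G.Adj x.2 y.2
  symm := ⟨fun _ _ h => ⟨h.1.symm, h.2.symm⟩⟩
  loopless := ⟨fun _ h => G.loopless.irrefl _ h.2⟩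

section general
variable {I : Type} [Fintype I] [DecidableEq I]

/-- the edges of a 2-regular graph given by a permutation -/
noncomputable def edgeEquiv (G : SimpleGraph I) (s : Equiv.Perm I)
    (hG : ∀ u v, G.Adj u v ↔ v = s u ∨ u = s v)
    (h2 : ∀ i, s (s i) ≠ i) : I ≃ G.edgeSet :=
  Equiv.ofBijective (fun i => ⟨s(i, s i), (hG i (s i)).2 (Or.inl rfl)⟩) (by
    constructor
    · intro i j hij
      have h := congrArg Subtype.val hij
      simp only [Sym2.eq, Sym2.rel_iff'] at h
      rcases h with h | h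
      · exact (Prod.mk.inj h).1
      · have h3 : i = s j := congrArg Prod.fst h
        have h4 : s i = j := congrArg Prod.snd h
        exfalso
        apply h2 j
        rw [← h3, h4]
    · rintro ⟨e, he⟩
      induction e using Sym2.ind with
      | _ u v =>
        rcases (hG u v).1 he with h | h
        · refine ⟨u, Subtype.ext ?_⟩
          change s(u, s u) = s(u, v)
          rw [h]
        · refine ⟨v, Subtype.ext ?_⟩
          change s(v, s v) = s(u, v)
          rw [h]
          exact Sym2.eq_swap)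

omit [Fintype I] [DecidableEq I] in
theorem edgeEquiv_symm_left (G : SimpleGraph I) (s : Equiv.Perm I)
    (hG : ∀ u v, G.Adj u v ↔ v = s u ∨ u = s v) (h2 : ∀ i, s (s i) ≠ i)
    (u v : I) (h : G.Adj u v) :
    (v = s u ∧ (edgeEquiv G s hG h2).symm ⟨s(u, v), h⟩ = u) ∨
    (u = s v ∧ (edgeEquiv G s hG h2).symm ⟨s(u, v), h⟩ = v) := by
  rcases (hG u v).1 h with h1 | h1
  · left
    refine ⟨h1, ?_⟩
    rw [Equiv.symm_apply_eq]
    refine Subtype.ext ?_
    change s(u, v) = s(u, s u)
    rw [h1]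
  · right
    refine ⟨h1, ?_⟩
    rw [Equiv.symm_apply_eq]
    refine Subtype.ext ?_
    show s(u, v) = s(v, s v)
    rw [← h1]
    exact Sym2.eq_swap

omit [DecidableEq I] in
theorem image_eq {F : I → ℕ} {a b : ℕ} (hinj : Function.Injective F)
    (hr : ∀ i, a ≤ F i ∧ F i ≤ b) (hc : b + 1 - a ≤ Fintype.card I) :
    univ.image F = Icc a b := by
  apply Finset.eq_of_subset_of_card_le
  · intro x hx
    obtain ⟨i, _, rfl⟩ := mem_image.1 hx
    exact mem_Icc.2 (hr i)
  · rw [Nat.card_Icc, card_image_of_injective _ hinj, card_univ]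
    exact hc

/-- from a labeling along the permutation to a labeling of the graph -/
theorem sem_of_perm (G : SimpleGraph I) (s : Equiv.Perm I)
    (hG : ∀ u v, G.Adj u v ↔ v = s u ∨ u = s v) (h2 : ∀ i, s (s i) ≠ i)
    (F K : I → ℕ) (σ : ℕ) (hF : Function.Injective F) (hK : Function.Injective K)
    (hFr : ∀ i, 1 ≤ F i ∧ F i ≤ Fintype.card I)
    (hKr : ∀ i, Fintype.card I + 1 ≤ K i ∧ K i ≤ 2 * Fintype.card I)
    (hσ : ∀ i, F i + F (s i) + K i = σ) : IsSuperEdgeMagic G := by
  have hcard : Nat.card G.edgeSet = Fintype.card I := by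
    rw [← Nat.card_congr (edgeEquiv G s hG h2), Nat.card_eq_fintype_card]
  have hFim := image_eq hF hFr (by omega)
  have hKim := image_eq hK hKr (by omega)
  refine ⟨Sum.elim F (fun e => K ((edgeEquiv G s hG h2).symm e)), σ, ⟨?_, ?_, ?_⟩, ?_, ?_⟩
  · rintro (i | e) _
    · have := hFr i
      rw [hcard, Set.mem_Icc]
      simp only [Sum.elim_inl]
      omega
    · have := hKr ((edgeEquiv G s hG h2).symm e)
      rw [hcard, Set.mem_Icc]
      simp only [Sum.elim_inr]
      omega
  · rintro (i | e) _ (j | e') _ h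
    · simp only [Sum.elim_inl] at h
      rw [hF h]
    · simp only [Sum.elim_inl, Sum.elim_inr] at h
      have h3 := hFr i
      have h4 := hKr ((edgeEquiv G s hG h2).symm e')
      omega
    · simp only [Sum.elim_inl, Sum.elim_inr] at h
      have h3 := hFr j
      have h4 := hKr ((edgeEquiv G s hG h2).symm e)
      omega
    · simp only [Sum.elim_inr] at h
      rw [(edgeEquiv G s hG h2).symm.injective (hK h)]
  · intro x hx
    rw [hcard, Set.mem_Icc] at hx
    by_cases hx1 : x ≤ Fintype.card I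
    · have : x ∈ univ.image F := by rw [hFim]; exact mem_Icc.2 ⟨hx.1, hx1⟩
      obtain ⟨i, _, hi⟩ := mem_image.1 this
      exact ⟨Sum.inl i, trivial, hi⟩
    · have : x ∈ univ.image K := by rw [hKim]; exact mem_Icc.2 ⟨by omega, by omega⟩
      obtain ⟨i, _, hi⟩ := mem_image.1 this
      refine ⟨Sum.inr (edgeEquiv G s hG h2 i), trivial, ?_⟩
      simp only [Sum.elim_inr, Equiv.symm_apply_apply]
      exact hi
  · ext x
    rw [Set.mem_range, Set.mem_Icc, ← mem_Icc, ← hFim, mem_image]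
    simp
  · intro u v h
    simp only [Sum.elim_inl, Sum.elim_inr]
    rcases edgeEquiv_symm_left G s hG h2 u v h with ⟨h3, h4⟩ | ⟨h3, h4⟩
    · rw [h4, h3]
      exact hσ u
    · rw [h4, h3, add_comm (F (s v)) (F v)]
      exact hσ v

omit [DecidableEq I] in
/-- a super edge-magic 2-regular graph has odd order -/
theorem odd_of_sem (G : SimpleGraph I) (s : Equiv.Perm I)
    (hG : ∀ u v, G.Adj u v ↔ v = s u ∨ u = s v) (h2 : ∀ i, s (s i) ≠ i) (hI : 0 < Fintype.card I)
    (h : IsSuperEdgeMagic G) : Odd (Fintype.card I) := by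
  obtain ⟨f, σ, hbij, hrange, hσ⟩ := h
  let e := edgeEquiv G s hG h2
  have hcard : Nat.card G.edgeSet = Fintype.card I := by
    rw [← Nat.card_congr (edgeEquiv G s hG h2), Nat.card_eq_fintype_card]
  set P := Fintype.card I with hP
  have hinj : Function.Injective f := fun x y hxy => hbij.2.1 trivial trivial hxy
  let F : I → ℕ := fun i => f (Sum.inl i)
  let K : I → ℕ := fun i => f (Sum.inr (e i))
  let T : I ⊕ I → ℕ := Sum.elim F K
  have hT : Function.Injective T := by
    rintro (i | i) (j | j) hij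
    · exact congrArg Sum.inl (Sum.inl.inj (hinj hij))
    · exact absurd (hinj hij) (by simp)
    · exact absurd (hinj hij) (by simp)
    · exact congrArg Sum.inr (e.injective (Sum.inr.inj (hinj hij)))
  have hTr : ∀ x, 1 ≤ T x ∧ T x ≤ P + P := by
    intro x
    rcases x with i | i
    · have := hbij.1 (x := Sum.inl i) trivial
      rw [hcard] at this
      exact this
    · have := hbij.1 (x := Sum.inr (e i)) trivial
      rw [hcard] at this
      exact this
  have hTim : univ.image T = Icc 1 (P + P) := image_eq hT hTr (by simp [← hP])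
  have hF : Function.Injective F := fun i j hij => Sum.inl.inj (hinj hij)
  have hFr : ∀ i, 1 ≤ F i ∧ F i ≤ P := by
    intro i
    have : F i ∈ Set.range (fun v => f (Sum.inl v)) := ⟨i, rfl⟩
    rw [hrange] at this
    exact this
  have hFim : univ.image F = Icc 1 P := image_eq hF hFr (by omega)
  have hgauss : ∀ n : ℕ, 2 * ∑ x ∈ Icc 1 n, x = n * (n + 1) := by
    intro n
    induction n with
    | zero => simp
    | succ n ih => rw [Finset.sum_Icc_succ_top (by omega), mul_add, ih]; ring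
  have hsT : 2 * ∑ x, T x = (P + P) * (P + P + 1) := by
    rw [← hgauss, ← hTim, sum_image (fun x _ y _ h => hT h)]
  have hsF : 2 * ∑ x, F x = P * (P + 1) := by
    rw [← hgauss, ← hFim, sum_image (fun x _ y _ h => hF h)]
  have hsFs : ∑ x, F (s x) = ∑ x, F x := Equiv.sum_comp s F
  have hsum : ∑ x, (F x + F (s x) + K x) = P * σ := by
    have hall : ∀ x, F x + F (s x) + K x = σ := fun i => hσ i (s i) ((hG _ _).2 (Or.inl rfl))
    simp only [hall]
    rw [sum_const, card_univ, smul_eq_mul]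
  have hTs : ∑ x, T x = ∑ x, F x + ∑ x, K x := Fintype.sum_sum_type T
  rw [sum_add_distrib, sum_add_distrib, hsFs] at hsum
  have h3 : P * (2 * σ) = P * (5 * P + 3) := by
    have : 2 * (P * σ) = P * (P + 1) + (P + P) * (P + P + 1) := by
      rw [← hsum, ← hsT, ← hsF, hTs]; ring
    calc P * (2 * σ) = 2 * (P * σ) := by ring
      _ = _ := by rw [this]; ring
  have h4 := Nat.eq_of_mul_eq_mul_left hI h3
  rcases Nat.even_or_odd P with he | ho
  · obtain ⟨r, hr⟩ := he
    omega
  · exact ho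

end general

/-! ### the Kotzig array -/

/-- three permutations of `{1, ..., 2 s + 1}` with constant sum -/
def kot (s : ℕ) (a : Fin 3) (i : ℕ) : ℕ :=
  if a = 0 then i + 1
  else if a = 1 then (if i % 2 = 0 then s + 1 - i / 2 else 2 * s + 1 - i / 2)
  else (if i % 2 = 0 then 2 * s + 1 - i / 2 else s - i / 2)

theorem kot_range (s : ℕ) (a : Fin 3) (i : ℕ) (hi : i < 2 * s + 1) :
    1 ≤ kot s a i ∧ kot s a i ≤ 2 * s + 1 := by
  unfold kot
  split_ifs <;> omega

theorem kot_inj (s : ℕ) (a : Fin 3) (i j : ℕ) (hi : i < 2 * s + 1) (hj : j < 2 * s + 1)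
    (h : kot s a i = kot s a j) : i = j := by
  unfold kot at h
  split_ifs at h <;> omega

theorem kot_sum (s : ℕ) (a b : Fin 3) (hab : a ≠ b) (i : ℕ) (hi : i < 2 * s + 1) :
    kot s a i + kot s b i + kot s (-(a + b)) i = 3 * (s + 1) := by
  have key : kot s 0 i + kot s 1 i + kot s 2 i = 3 * (s + 1) := by
    have e0 : kot s 0 i = i + 1 := rfl
    have e1 : kot s 1 i = if i % 2 = 0 then s + 1 - i / 2 else 2 * s + 1 - i / 2 := rfl
    have e2 : kot s 2 i = if i % 2 = 0 then 2 * s + 1 - i / 2 else s - i / 2 := rfl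
    rw [e0, e1, e2]
    split_ifs <;> omega
  have h01 : (-(0 + 1) : Fin 3) = 2 := by decide
  have h02 : (-(0 + 2) : Fin 3) = 1 := by decide
  have h10 : (-(1 + 0) : Fin 3) = 2 := by decide
  have h12 : (-(1 + 2) : Fin 3) = 0 := by decide
  have h20 : (-(2 + 0) : Fin 3) = 1 := by decide
  have h21 : (-(2 + 1) : Fin 3) = 0 := by decide
  fin_cases a <;> fin_cases b <;> simp only [Fin.zero_eta, Fin.mk_one, Fin.reduceFinMk] at hab ⊢
  · exact absurd rfl hab
  · rw [h01]; omega
  · rw [h02]; omega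
  · rw [h10]; omega
  · exact absurd rfl hab
  · rw [h12]; omega
  · rw [h20]; omega
  · rw [h21]; omega
  · exact absurd rfl hab

theorem mul_add_inj {t a b x y : ℕ} (hx : 1 ≤ x ∧ x ≤ t) (hy : 1 ≤ y ∧ y ≤ t)
    (h : t * a + x = t * b + y) : a = b ∧ x = y := by
  rcases lt_trichotomy a b with h1 | h1 | h1
  · exfalso
    have : t * (a + 1) ≤ t * b := Nat.mul_le_mul_left t h1
    rw [mul_add] at this
    omega
  · subst h1
    exact ⟨rfl, by omega⟩
  · exfalso
    have : t * (b + 1) ≤ t * a := Nat.mul_le_mul_left t h1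
    rw [mul_add] at this
    omega

/-! ### the cycles -/

/-- a colouring of the cycle by three colours -/
def ccol (m : ℕ) (i : Fin m) : Fin 3 :=
  if i.val + 1 = m then 2 else if i.val % 2 = 0 then 0 else 1

theorem ccol_ne (m : ℕ) (hm : 3 ≤ m) (i j : Fin m) (hij : j.val = (i.val + 1) % m) :
    ccol m i ≠ ccol m j := by
  unfold ccol
  by_cases h : i.val + 1 = m
  · have hj : j.val = 0 := by rw [hij, h, Nat.mod_self]
    rw [if_pos h, if_neg (by omega), if_pos (by omega)]
    decide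
  · have hj : j.val = i.val + 1 := by rw [hij, Nat.mod_eq_of_lt (by omega)]
    rw [if_neg h]
    split_ifs <;> first | decide | omega

/-- the successor permutation on `Fin m` -/
def cyc (m : ℕ) : Equiv.Perm (Fin m) := finRotate m

theorem cyc_val (m : ℕ) (hm : 3 ≤ m) (i : Fin m) : (cyc m i).val = (i.val + 1) % m := by
  obtain ⟨k, rfl⟩ : ∃ k, m = k + 1 := ⟨m - 1, by omega⟩
  unfold cyc
  rw [finRotate_apply, Fin.val_add]
  congr 1
  rw [Fin.val_one']
  rw [Nat.mod_eq_of_lt (by omega)]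

theorem cyc_two (m : ℕ) (hm : 3 ≤ m) (i : Fin m) : cyc m (cyc m i) ≠ i := by
  intro h
  have h1 := cyc_val m hm (cyc m i)
  rw [h, cyc_val m hm i] at h1
  have hi := i.2
  rcases Nat.lt_or_ge (i.val + 1) m with h2 | h2
  · rw [Nat.mod_eq_of_lt h2] at h1
    rcases Nat.lt_or_ge (i.val + 2) m with h3 | h3
    · rw [Nat.mod_eq_of_lt (by omega)] at h1
      omega
    · have : i.val + 1 + 1 = m := by omega
      rw [this, Nat.mod_self] at h1
      omega
  · have : i.val + 1 = m := by omega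
    rw [this, Nat.mod_self, Nat.mod_eq_of_lt (by omega)] at h1
    omega

theorem cyc_adj (m : ℕ) (hm : 3 ≤ m) (u v : Fin m) :
    (SimpleGraph.cycleGraph m).Adj u v ↔ v = cyc m u ∨ u = cyc m v := by
  obtain ⟨k, rfl⟩ : ∃ k, m = k + 2 := ⟨m - 2, by omega⟩
  rw [SimpleGraph.cycleGraph_adj]
  unfold cyc
  rw [finRotate_apply, finRotate_apply, sub_eq_iff_eq_add', sub_eq_iff_eq_add', or_comm]

/-- the successor permutation on `t` copies of two cycles -/
def sperm (t m n : ℕ) : Equiv.Perm (Fin t × (Fin m ⊕ Fin n)) :=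
  Equiv.prodCongr (Equiv.refl _) (Equiv.sumCongr (cyc m) (cyc n))

theorem sperm_adj (t m n : ℕ) (hm : 3 ≤ m) (hn : 3 ≤ n) (u v : Fin t × (Fin m ⊕ Fin n)) :
    (copies t (SimpleGraph.cycleGraph m ⊕g SimpleGraph.cycleGraph n)).Adj u v ↔
      v = sperm t m n u ∨ u = sperm t m n v := by
  obtain ⟨c, u⟩ := u
  obtain ⟨d, v⟩ := v
  change (c = d ∧ (SimpleGraph.cycleGraph m ⊕g SimpleGraph.cycleGraph n).Adj u v) ↔
    (d, v) = (c, Sum.map (cyc m) (cyc n) u) ∨ (c, u) = (d, Sum.map (cyc m) (cyc n) v)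
  rw [Prod.mk.injEq, Prod.mk.injEq]
  rcases u with u | u <;> rcases v with v | v
  · rw [SimpleGraph.sum_adj_inl, cyc_adj m hm]
    simp only [Sum.map_inl, Sum.inl.injEq]
    constructor
    · rintro ⟨rfl, h | h⟩
      · exact Or.inl ⟨rfl, h⟩
      · exact Or.inr ⟨rfl, h⟩
    · rintro (⟨rfl, h⟩ | ⟨rfl, h⟩)
      · exact ⟨rfl, Or.inl h⟩
      · exact ⟨rfl, Or.inr h⟩
  · simp
  · simp
  · rw [SimpleGraph.sum_adj_inr, cyc_adj n hn]
    simp only [Sum.map_inr, Sum.inr.injEq]
    constructor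
    · rintro ⟨rfl, h | h⟩
      · exact Or.inl ⟨rfl, h⟩
      · exact Or.inr ⟨rfl, h⟩
    · rintro (⟨rfl, h⟩ | ⟨rfl, h⟩)
      · exact ⟨rfl, Or.inl h⟩
      · exact ⟨rfl, Or.inr h⟩

theorem sperm_two (t m n : ℕ) (hm : 3 ≤ m) (hn : 3 ≤ n) (u : Fin t × (Fin m ⊕ Fin n)) :
    sperm t m n (sperm t m n u) ≠ u := by
  obtain ⟨c, u | u⟩ := u
  · intro h
    exact cyc_two m hm u (Sum.inl.inj (congrArg Prod.snd h))
  · intro h
    exact cyc_two n hn u (Sum.inr.inj (congrArg Prod.snd h))

theorem card_I (t m n : ℕ) : Fintype.card (Fin t × (Fin m ⊕ Fin n)) = t * (m + n) := by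
  simp

/-- from one copy to `2 s + 1` copies -/
theorem many (s m n : ℕ) (hm : 3 ≤ m) (hn : 3 ≤ n) (h : Pool.Agent.Helper25.SEM.Sem m n) :
    IsSuperEdgeMagic
      (copies (2 * s + 1) (SimpleGraph.cycleGraph m ⊕g SimpleGraph.cycleGraph n)) := by
  obtain ⟨f, g, k, hf, hg, hfr, hgr, h1, h2⟩ := h
  set t := 2 * s + 1 with ht
  let col : Fin m ⊕ Fin n → Fin 3 := Sum.elim (ccol m) (ccol n)
  let nx : Fin m ⊕ Fin n → Fin m ⊕ Fin n := Sum.map (cyc m) (cyc n)
  have hcol : ∀ v, col v ≠ col (nx v) := by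
    rintro (v | v)
    · exact ccol_ne m hm _ _ (cyc_val m hm v)
    · exact ccol_ne n hn _ _ (cyc_val n hn v)
  have hk : ∀ v, f v + f (nx v) + g v = k := by
    rintro (v | v)
    · exact h1 v _ (cyc_val m hm v)
    · exact h2 v _ (cyc_val n hn v)
  let F : Fin t × (Fin m ⊕ Fin n) → ℕ := fun x => t * (f x.2 - 1) + kot s (col x.2) x.1
  let K : Fin t × (Fin m ⊕ Fin n) → ℕ := fun x =>
    t * (g x.2 - 1) + kot s (-(col x.2 + col (nx x.2))) x.1
  have hr := fun (a : Fin 3) (i : Fin t) => kot_range s a i i.2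
  refine sem_of_perm _ (sperm t m n) (sperm_adj t m n hm hn) (sperm_two t m n hm hn) F K
    (t * (k - 3) + 3 * (s + 1)) ?_ ?_ ?_ ?_ ?_
  · rintro ⟨i, u⟩ ⟨j, v⟩ hij
    obtain ⟨h3, h4⟩ := mul_add_inj (hr (col u) i) (hr (col v) j) hij
    change f u - 1 = f v - 1 at h3
    have h5 : u = v := hf (by have := hfr u; have := hfr v; omega)
    subst h5
    have h6 := kot_inj s (col u) i j i.2 j.2 h4
    rw [Fin.ext h6]
  · rintro ⟨i, u⟩ ⟨j, v⟩ hij
    obtain ⟨h3, h4⟩ := mul_add_inj (hr _ i) (hr _ j) hij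
    change g u - 1 = g v - 1 at h3
    have h5 : u = v := hg (by have := hgr u; have := hgr v; omega)
    subst h5
    have h6 := kot_inj s _ i j i.2 j.2 h4
    rw [Fin.ext h6]
  · rintro ⟨i, u⟩
    rw [card_I]
    have h3 := hr (col u) i
    have h4 := hfr u
    have h5 : t * (f u - 1) + t ≤ t * (m + n) := by
      rw [← Nat.mul_succ]
      exact Nat.mul_le_mul_left t (by omega)
    change 1 ≤ t * (f u - 1) + kot s (col u) i ∧ t * (f u - 1) + kot s (col u) i ≤ t * (m + n)
    omega
  · rintro ⟨i, u⟩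
    rw [card_I]
    have h3 := hr (-(col u + col (nx u))) i
    have h4 := hgr u
    have h5 : t * (g u - 1) + t ≤ t * (2 * (m + n)) := by
      rw [← Nat.mul_succ]
      exact Nat.mul_le_mul_left t (by omega)
    have h6 : t * (m + n) ≤ t * (g u - 1) := Nat.mul_le_mul_left t (by omega)
    have h7 : t * (2 * (m + n)) = 2 * (t * (m + n)) := by ring
    change t * (m + n) + 1 ≤ t * (g u - 1) + kot s (-(col u + col (nx u))) i ∧
      t * (g u - 1) + kot s (-(col u + col (nx u))) i ≤ 2 * (t * (m + n))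
    omega
  · rintro ⟨i, u⟩
    change t * (f u - 1) + kot s (col u) i + (t * (f (nx u) - 1) + kot s (col (nx u)) i) +
      (t * (g u - 1) + kot s (-(col u + col (nx u))) i) = t * (k - 3) + 3 * (s + 1)
    have h3 := kot_sum s (col u) (col (nx u)) (hcol u) i i.2
    have h4 : (f u - 1) + (f (nx u) - 1) + (g u - 1) = k - 3 := by
      have := hfr u
      have := hfr (nx u)
      have := hgr u
      have := hk u
      omega
    rw [← h4, ← h3]
    ring

theorem oddCopies (t m n : ℕ) (ht : 1 ≤ t) (hm : 3 ≤ m) (hn : 3 ≤ n)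
    (h : ¬ ((m = 3 ∧ n = 4) ∨ (m = 4 ∧ n = 3))) :
    IsSuperEdgeMagic (copies t (SimpleGraph.cycleGraph m ⊕g SimpleGraph.cycleGraph n)) ↔
      Odd (t * (m + n)) := by
  constructor
  · intro hs
    have := odd_of_sem _ (sperm t m n) (sperm_adj t m n hm hn) (sperm_two t m n hm hn)
      (by rw [card_I]; positivity) hs
    rwa [card_I] at this
  · intro ho
    rw [Nat.odd_mul] at ho
    obtain ⟨s, rfl⟩ := ho.1
    exact many s m n hm hn ((Pool.Agent.Helper25.SEM.main m n hm hn h).2 ho.2)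

end Pool.Agent.Helper80.OWN
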